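import Mathlib
import Pool.Agent.W755.HaightC

/-!
# Haight's question on integer multiples and unions of integer dilates

For `E ⊆ (0,∞)` put `F(E) = ⋃_{r ≥ 1} r E`.  Haight asked whether for every measurable `E` of
positive measure, for almost every `x > 0`, all sufficiently large multiples `n x` lie in `F(E)`.

The answer is no: for every `ε > 0` there is a compact set `E ⊆ [2,3]` of measure at least `1 - ε`
such that for EVERY `x ∈ (0,2)` there are infinitely many primes `n` with `n x ∉ F(E)`.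

Idea: take a cluster of `K` primes `p_0 < ... < p_(K-1)` in an interval `[P, (1+c)P]`. By
Kronecker's theorem there is a large `t` with `t log r` close to an integer for all `r < p_0` and
`t log p_k` close to `k/K` mod 1. Remove from `[2,3]` the set of `z` with `t log z` within about
`1/K` of an integer. If `x < 2`, choose `k` with `t log x + k/K` close to an integer from above; if
`p_k x = r z` with `z ∈ [2,3]` then `r < p_0`, and `t log z` is close to an integer, so `z` was removed.
-/

set_option autoImplicit false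

namespace Pool.Agent.Results.MP_bfec62_an.HaightCounterexample

open MeasureTheory

/-- `F(E) = ⋃_{r ≥ 1} r E`, the union of the dilates of `E` by all positive integers. -/
def F (E : Set ℝ) : Set ℝ := ⋃ r : ℕ, ⋃ _ : 1 ≤ r, (fun x : ℝ => (r : ℝ) * x) '' E

theorem mem_F (E : Set ℝ) (y : ℝ) : y ∈ F E ↔ ∃ r : ℕ, 0 < r ∧ ∃ z ∈ E, y = r * z := by
  simp only [F, Set.mem_iUnion, Set.mem_image, exists_prop]
  constructor
  · rintro ⟨r, hr, z, hz, h⟩
    exact ⟨r, hr, z, hz, h.symm⟩
  · rintro ⟨r, hr, z, hz, h⟩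
    exact ⟨r, hr, z, hz, h.symm⟩

/-- For every `ε > 0` there is a compact `E ⊆ [2,3]` of Lebesgue measure at least `1 - ε` such that
for every `x ∈ (0,2)` there are infinitely many primes `n` with `n x ∉ F(E)`. -/
theorem result : ∀ ε : ℝ, 0 < ε → ∃ E : Set ℝ, IsCompact E ∧ E ⊆ Set.Icc 2 3 ∧
    ENNReal.ofReal (1 - ε) ≤ volume E ∧
    ∀ x ∈ Set.Ioo (0 : ℝ) 2, {n : ℕ | n.Prime ∧ (n : ℝ) * x ∉ F E}.Infinite := by
  intro ε hε
  obtain ⟨E, h1, h2, h3, h4⟩ := Pool.Agent.W755.Haight.main ε hε
  refine ⟨E, h1, h2, h3, fun x hx => ?_⟩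
  simpa only [mem_F] using h4 x hx

/-- The negated form of the question, literally. -/
theorem negated_form : ∃ E X : Set ℝ, MeasurableSet E ∧ E ⊆ Set.Ioi 0 ∧ 0 < volume E ∧
    MeasurableSet X ∧ X ⊆ Set.Ioi 0 ∧ 0 < volume X ∧
    ∀ x ∈ X, {n : ℕ | 0 < n ∧ (n : ℝ) * x ∉ F E}.Infinite := by
  obtain ⟨E, h1, h2, h3, h4⟩ := result (1 / 2) (by norm_num)
  refine ⟨E, Set.Ioo 0 2, h1.measurableSet, fun x hx => ?_, ?_, measurableSet_Ioo,
    fun x hx => hx.1, ?_, fun x hx => (h4 x hx).mono fun n hn => ⟨hn.1.pos, hn.2⟩⟩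
  · exact lt_of_lt_of_le (by norm_num) (h2 hx).1
  · refine lt_of_lt_of_le ?_ h3
    simp; norm_num
  · simp

end Pool.Agent.Results.MP_bfec62_an.HaightCounterexample
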